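import Mathlib
import Pool.Agent.H946R3.Tri.ANot
import Pool.Agent.H946R3.Tri.BF

set_option autoImplicit false

open MeasureTheory ProbabilityTheory Filter Topology Set
open scoped ENNReal NNReal BoundedContinuousFunction

namespace Pool.Agent.Results.MP_db3298_pr.DistributionMatters

/-! ### The model

Servers are `0, 1, 2 : Fin 3` (addition is cyclic). A class-`c` customer may be served by its left
server `c` or by its right server `c + 1`.  -/

/-- Workload vectors of the three servers. -/
abbrev Load := Fin 3 → ℝ

/-- Workloads after `t` time units without arrivals: each server works at unit rate while its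
workload is positive. -/
noncomputable def drain (x : Load) (t : ℝ) : Load := fun i => max (x i - t) 0

open Classical in
/-- Arrival of a customer with mark `k = (c, (l, r))`: its class is `c`, its service time is `l` if
it joins its left server `c` and `r` if it joins its right server `c + 1`. It joins the accessible
server with the smaller current workload; ties go to the right server. -/
noncomputable def join (x : Load) (k : Fin 3 × (ℝ × ℝ)) : Load :=
  if x k.1 < x (k.1 + 1) then Function.update x k.1 (x k.1 + k.2.1)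
  else Function.update x (k.1 + 1) (x (k.1 + 1) + k.2.2)

/-- Epoch of the `n`-th arrival (`arr ω 0 = 0`); `(ω n).1` is the `n`-th interarrival time and
`(ω n).2` the mark of the customer arriving at its end. -/
noncomputable def arr {K : Type*} (ω : ℕ → ℝ × K) (n : ℕ) : ℝ := ∑ k ∈ Finset.range n, (ω k).1

/-- Number of arrivals up to time `t`: the least `n` such that arrival `n + 1` comes after `t`. -/
noncomputable def count {K : Type*} (ω : ℕ → ℝ × K) (t : ℝ) : ℕ := sInf {n : ℕ | t < arr ω (n + 1)}

/-- Workload vector just after the `n`-th arrival, from the initial vector `w` at time `0`. -/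
noncomputable def after (w : Load) (ω : ℕ → ℝ × (Fin 3 × (ℝ × ℝ))) : ℕ → Load
  | 0 => w
  | n + 1 => join (drain (after w ω n) (ω n).1) (ω n).2

/-- Workload vector `W(t)` from `W(0) = w`. -/
noncomputable def workload (w : Load) (ω : ℕ → ℝ × (Fin 3 × (ℝ × ℝ))) (t : ℝ) : Load :=
  drain (after w ω (count ω t)) (t - arr ω (count ω t))

/-- Law of a mark: uniform class, independent service times with laws `Fl` (left) and `Fr` (right). -/
noncomputable def markLaw (Fl Fr : Measure ℝ) : Measure (Fin 3 × (ℝ × ℝ)) :=
  (PMF.uniformOfFintype (Fin 3)).toMeasure.prod (Fl.prod Fr)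

/-- Law of the input: i.i.d. pairs of an exponential(`lam`) interarrival time and an independent mark. -/
noncomputable def law (lam : ℝ) (Fl Fr : Measure ℝ) : Measure (ℕ → ℝ × (Fin 3 × (ℝ × ℝ))) :=
  Measure.infinitePi (fun _ => (expMeasure lam).prod (markLaw Fl Fr))

/-- Stability from `w`: the law of `W(t)` converges weakly, as `t → ∞`, to a probability measure
on the nonnegative vectors. -/
def Stable (lam : ℝ) (Fl Fr : Measure ℝ) (w : Load) : Prop :=
  ∃ π : Measure Load, IsProbabilityMeasure π ∧ π {x | ∀ i, 0 ≤ x i} = 1 ∧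
    ∀ g : Load →ᵇ ℝ, Tendsto (fun t : ℝ => ∫ ω, g (workload w ω t) ∂(law lam Fl Fr)) atTop
      (𝓝 (∫ x, g x ∂π))

open Pool.Agent.Helper52 in
theorem after_eq (w : Load) (ω : ℕ → ℝ × (Fin 3 × (ℝ × ℝ))) (n : ℕ) :
    after w ω n = Tri.gafter Tri.drain Tri.join w ω n := by
  induction n with
  | zero => rfl
  | succ n ih => simp only [after, Tri.gafter, ih]; rfl

open Pool.Agent.Helper52 in
theorem workload_eq (w : Load) (ω : ℕ → ℝ × (Fin 3 × (ℝ × ℝ))) (t : ℝ) :
    workload w ω t = Tri.gW Tri.drain Tri.join w ω t := by
  unfold workload Tri.gW; rw [after_eq]; rfl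

/-- the two-point law with atoms `1/2` at `1` and at `3` -/
noncomputable def half13 : Measure ℝ :=
  (2:ℝ≥0∞)⁻¹ • Measure.dirac 1 + (2:ℝ≥0∞)⁻¹ • Measure.dirac 3

theorem half13_prob : IsProbabilityMeasure half13 := by
  refine ⟨?_⟩
  unfold half13
  simp [ENNReal.inv_two_add_inv_two]

theorem half13_pos : half13 (Iic 0) = 0 := by
  unfold half13
  rw [Measure.add_apply, Measure.smul_apply, Measure.smul_apply, Measure.dirac_apply' _ measurableSet_Iic,
    Measure.dirac_apply' _ measurableSet_Iic, indicator_of_notMem (by norm_num),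
    indicator_of_notMem (by norm_num)]
  simp

theorem half13_int : Integrable (fun x => x) half13 := by
  unfold half13
  apply Integrable.add_measure
  · exact (integrable_dirac (by simp)).smul_measure (by simp)
  · exact (integrable_dirac (by simp)).smul_measure (by simp)

theorem half13_mean : ∫ x, x ∂half13 = 2 := by
  unfold half13
  rw [integral_add_measure ((integrable_dirac (by simp)).smul_measure (by simp))
    ((integrable_dirac (by simp)).smul_measure (by simp)), integral_smul_measure, integral_smul_measure,
    integral_dirac, integral_dirac]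
  simp
  norm_num

theorem rate_stable :
    Pool.Agent.H946R3.TriA.lam0 * Pool.Agent.H946R3.TriB.aa < 3 * Pool.Agent.H946R3.TriB.th := by
  unfold Pool.Agent.H946R3.TriA.lam0 Pool.Agent.H946R3.TriB.aa Pool.Agent.H946R3.TriB.th; norm_num

/-- **Q2 has a positive answer.** Take `lam = 246/125`, all left service times equal to `1`, and ties
broken to the right. If the right service times are `1` or `3` with probability `1/2` each, the system
started empty is stable. If the right service times are all equal to `2`, which has the same mean, the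
system started empty is not stable: there is `q > 0` such that for every `k` and every sufficiently
large `t`, all three workloads at time `t` exceed `k` with probability at least `q`. -/
theorem result :
    ∃ (lam : ℝ) (Fl Fr Fl' Fr' : Measure ℝ),
      lam = 246 / 125 ∧ Fl = Measure.dirac 1 ∧
      Fr = (2:ℝ≥0∞)⁻¹ • Measure.dirac 1 + (2:ℝ≥0∞)⁻¹ • Measure.dirac 3 ∧
      Fl' = Measure.dirac 1 ∧ Fr' = Measure.dirac 2 ∧
      0 < lam ∧ IsProbabilityMeasure Fl ∧ IsProbabilityMeasure Fr ∧ IsProbabilityMeasure Fl' ∧
      IsProbabilityMeasure Fr' ∧ Fl (Iic 0) = 0 ∧ Fr (Iic 0) = 0 ∧ Fl' (Iic 0) = 0 ∧ Fr' (Iic 0) = 0 ∧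
      Integrable (fun x => x) Fl ∧ Integrable (fun x => x) Fr ∧ Integrable (fun x => x) Fl' ∧
      Integrable (fun x => x) Fr' ∧ ∫ x, x ∂Fl = ∫ x, x ∂Fl' ∧ ∫ x, x ∂Fr = ∫ x, x ∂Fr' ∧
      Stable lam Fl Fr 0 ∧ ¬ Stable lam Fl' Fr' 0 ∧
      (∃ q : ℝ, 0 < q ∧ ∀ k : ℝ, ∀ᶠ t : ℝ in atTop,
        ENNReal.ofReal q ≤ law lam Fl' Fr' {ω | ∀ i, k < workload 0 ω t i}) := by
  have hlawA : law (246 / 125) (Measure.dirac 1) (Measure.dirac 2) =
      Pool.Agent.Helper52.Tri.PP Pool.Agent.H946R3.TriA.lam0 := rfl
  have hlawB : law (246 / 125) (Measure.dirac 1) half13 =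
      Pool.Agent.H946R3.TriB.PP Pool.Agent.H946R3.TriA.lam0 := rfl
  have hd : ∀ a : ℝ, 0 < a → Measure.dirac a (Iic (0:ℝ)) = 0 := by
    intro a ha
    rw [Measure.dirac_apply' _ measurableSet_Iic, indicator_of_notMem (by simpa using ha)]
  refine ⟨246 / 125, Measure.dirac 1, half13, Measure.dirac 1, Measure.dirac 2, rfl, rfl, rfl, rfl, rfl,
    by norm_num, inferInstance, half13_prob, inferInstance, inferInstance, hd 1 one_pos, half13_pos,
    hd 1 one_pos, hd 2 two_pos, integrable_dirac (by simp), half13_int, integrable_dirac (by simp),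
    integrable_dirac (by simp), rfl, ?_, ?_, ?_, ?_⟩
  · rw [half13_mean, integral_dirac]
  · obtain ⟨π, h1, h2, h3⟩ := Pool.Agent.H946R3.TriB.stable_conv Pool.Agent.H946R3.TriA.lam0_pos rate_stable
    refine ⟨π, h1, h2, fun g => ?_⟩
    rw [hlawB]
    simp only [workload_eq]
    exact h3 g
  · rintro ⟨π, h1, h2, h3⟩
    refine Pool.Agent.H946R3.TriA.not_conv0 ⟨π, h1, fun g => ?_⟩
    have := h3 g
    rw [hlawA] at this
    simp only [workload_eq] at this
    exact this
  · refine ⟨Pool.Agent.H946R3.TriA.qq, Pool.Agent.H946R3.TriA.qq_pos, fun k => ?_⟩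
    have := Pool.Agent.H946R3.TriA.escape_event0 k
    rw [hlawA]
    simp only [workload_eq]
    exact this

end Pool.Agent.Results.MP_db3298_pr.DistributionMatters
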